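import Mathlib

/-!
Calculus for the Laplacian: product rule with radial functions.
-/

namespace Pool.Agent.Helper78.Sph

open Laplacian Filter Topology
open scoped RealInnerProductSpace ContDiff

variable {E : Type*} [NormedAddCommGroup E] [InnerProductSpace ℝ E] [FiniteDimensional ℝ E]

section second

variable {F : Type*} [NormedAddCommGroup F] [NormedSpace ℝ F]

omit [FiniteDimensional ℝ E] in
lemma diff_fderiv_apply {f : E → F} {x : E} (hf : ContDiffAt ℝ 2 f x) (v : E) :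
    DifferentiableAt ℝ (fun y => fderiv ℝ f y v) x := by
  have h1 : ContDiffAt ℝ 1 (fderiv ℝ f) x := hf.fderiv_right (by norm_num)
  exact (h1.differentiableAt (by norm_num)).clm_apply (differentiableAt_const v)

lemma laplacian_eq {ι : Type*} [Fintype ι] (b : OrthonormalBasis ι ℝ E) {f : E → F} {x : E}
    (hf : ContDiffAt ℝ 2 f x) :
    Δ f x = ∑ i, fderiv ℝ (fun y => fderiv ℝ f y (b i)) x (b i) := by
  rw [InnerProductSpace.laplacian_eq_iteratedFDeriv_orthonormalBasis f b]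
  refine Finset.sum_congr rfl fun i _ => ?_
  rw [iteratedFDeriv_two_apply]
  have h1 : ContDiffAt ℝ 1 (fderiv ℝ f) x := hf.fderiv_right (by norm_num)
  rw [fderiv_clm_apply (h1.differentiableAt (by norm_num)) (differentiableAt_const _)]
  simp

omit [FiniteDimensional ℝ E] in
lemma eventually_diff {f : E → F} {x : E} (hf : ContDiffAt ℝ 2 f x) :
    ∀ᶠ y in 𝓝 x, DifferentiableAt ℝ f y := by
  have h := hf.eventually (by simp)
  exact h.mono fun y hy => hy.differentiableAt (by norm_num)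

end second

/-- product rule -/
lemma laplacian_mul {ι : Type*} [Fintype ι] (b : OrthonormalBasis ι ℝ E) {f g : E → ℂ} {x : E}
    (hf : ContDiffAt ℝ 2 f x) (hg : ContDiffAt ℝ 2 g x) :
    Δ (fun y => f y * g y) x = f x * Δ g x + 2 * ∑ i, fderiv ℝ f x (b i) * fderiv ℝ g x (b i)
      + g x * Δ f x := by
  rw [laplacian_eq b (hf.mul hg), laplacian_eq b hf, laplacian_eq b hg, Finset.mul_sum,
    Finset.mul_sum, Finset.mul_sum, ← Finset.sum_add_distrib, ← Finset.sum_add_distrib]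
  refine Finset.sum_congr rfl fun i _ => ?_
  have h1 : (fun y => fderiv ℝ (fun y => f y * g y) y (b i)) =ᶠ[𝓝 x]
      fun y => f y * fderiv ℝ g y (b i) + g y * fderiv ℝ f y (b i) := by
    filter_upwards [eventually_diff hf, eventually_diff hg] with y hfy hgy
    rw [fderiv_fun_mul hfy hgy]
    simp
  rw [h1.fderiv_eq]
  have hfx := hf.differentiableAt (by norm_num)
  have hgx := hg.differentiableAt (by norm_num)
  have hf2 := diff_fderiv_apply hf (b i)
  have hg2 := diff_fderiv_apply hg (b i)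
  rw [fderiv_fun_add (hfx.fun_mul hg2) (hgx.fun_mul hf2), fderiv_fun_mul hfx hg2,
    fderiv_fun_mul hgx hf2]
  simp only [add_apply, smul_apply, smul_eq_mul]
  ring

/-- radial functions -/
noncomputable def rad (φ : ℝ → ℝ) (y : E) : ℂ := ((φ (‖y‖ ^ 2) : ℝ) : ℂ)

omit [FiniteDimensional ℝ E] in
lemma contDiffAt_rad {φ : ℝ → ℝ} {x : E} {n : WithTop ℕ∞} (hφ : ContDiffAt ℝ n φ (‖x‖ ^ 2)) :
    ContDiffAt ℝ n (rad (E := E) φ) x := by
  have h1 : ContDiffAt ℝ n (fun y : E => ‖y‖ ^ 2) x := (contDiff_norm_sq ℝ).contDiffAt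
  have h2 : ContDiffAt ℝ n (fun y : E => φ (‖y‖ ^ 2)) x := hφ.comp x h1
  exact Complex.ofRealCLM.contDiff.contDiffAt.comp x h2

omit [FiniteDimensional ℝ E] in
lemma fderiv_rad {φ : ℝ → ℝ} {x : E} (hφ : DifferentiableAt ℝ φ (‖x‖ ^ 2)) (v : E) :
    fderiv ℝ (rad (E := E) φ) x v = ((deriv φ (‖x‖ ^ 2) * (2 * ⟪x, v⟫) : ℝ) : ℂ) := by
  have h1 : HasFDerivAt (fun y : E => ‖y‖ ^ 2) (2 • (innerSL ℝ x)) x :=
    (hasStrictFDerivAt_norm_sq x).hasFDerivAt
  have h2 := hφ.hasDerivAt.comp_hasFDerivAt x h1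
  have h3 := Complex.ofRealCLM.hasFDerivAt.comp x h2
  have h4 : HasFDerivAt (rad (E := E) φ)
      (Complex.ofRealCLM.comp (deriv φ (‖x‖ ^ 2) • (2 • (innerSL ℝ x)))) x := h3
  rw [h4.fderiv]
  simp

lemma laplacian_rad {φ : ℝ → ℝ} {x : E} (hφ : ContDiffAt ℝ 2 φ (‖x‖ ^ 2)) :
    Δ (rad (E := E) φ) x = ((4 * ‖x‖ ^ 2 * deriv (deriv φ) (‖x‖ ^ 2)
      + 2 * (Module.finrank ℝ E) * deriv φ (‖x‖ ^ 2) : ℝ) : ℂ) := by
  set b := stdOrthonormalBasis ℝ E with hb
  rw [laplacian_eq b (contDiffAt_rad hφ)]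
  have hφ1 : ContDiffAt ℝ 1 (deriv φ) (‖x‖ ^ 2) := by
    have h1 : ContDiffAt ℝ 1 (fderiv ℝ φ) (‖x‖ ^ 2) := hφ.fderiv_right (by norm_num)
    have h2 : deriv φ = fun t => fderiv ℝ φ t 1 := by
      funext t; rw [fderiv_apply_one_eq_deriv]
    rw [h2]
    exact h1.clm_apply contDiffAt_const
  have hφ1d : DifferentiableAt ℝ (deriv φ) (‖x‖ ^ 2) := hφ1.differentiableAt (by norm_num)
  have hcont : Tendsto (fun y : E => ‖y‖ ^ 2) (𝓝 x) (𝓝 (‖x‖ ^ 2)) :=
    ((continuous_norm.pow 2).tendsto x)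
  have key : ∀ v : E, fderiv ℝ (fun y => fderiv ℝ (rad (E := E) φ) y v) x v
      = ((deriv (deriv φ) (‖x‖ ^ 2) * (2 * ⟪x, v⟫) * (2 * ⟪x, v⟫)
        + deriv φ (‖x‖ ^ 2) * (2 * ⟪v, v⟫) : ℝ) : ℂ) := by
    intro v
    have h1 : (fun y => fderiv ℝ (rad (E := E) φ) y v) =ᶠ[𝓝 x]
        fun y => rad (E := E) (deriv φ) y * ((2 * ⟪y, v⟫ : ℝ) : ℂ) := by
      have h2 : ∀ᶠ t in 𝓝 (‖x‖ ^ 2), DifferentiableAt ℝ φ t :=
        (hφ.eventually (by simp)).mono fun t ht => ht.differentiableAt (by norm_num)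
      filter_upwards [hcont.eventually h2] with y hy
      rw [fderiv_rad hy v, rad]
      push_cast
      ring
    rw [h1.fderiv_eq]
    have h3 : HasFDerivAt (fun y : E => ((2 * ⟪y, v⟫ : ℝ) : ℂ))
        (Complex.ofRealCLM.comp ((2 : ℝ) • (innerSL ℝ v))) x := by
      have h4 : HasFDerivAt (fun y : E => (2 * ⟪y, v⟫ : ℝ)) ((2 : ℝ) • (innerSL ℝ v)) x := by
        have h5 : (fun y : E => (2 * ⟪y, v⟫ : ℝ)) = fun y => ((2 : ℝ) • (innerSL ℝ v)) y := by
          funext y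
          simp [real_inner_comm]
        rw [h5]
        exact ContinuousLinearMap.hasFDerivAt _
      exact Complex.ofRealCLM.hasFDerivAt.comp x h4
    have h6 : DifferentiableAt ℝ (rad (E := E) (deriv φ)) x :=
      (contDiffAt_rad hφ1).differentiableAt (by norm_num)
    rw [fderiv_fun_mul h6 h3.differentiableAt, h3.fderiv]
    simp only [add_apply, smul_apply, smul_eq_mul, fderiv_rad hφ1d v, rad]
    simp only [ContinuousLinearMap.comp_apply, smul_apply, innerSL_apply_apply,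
      Complex.ofRealCLM_apply, smul_eq_mul]
    push_cast
    ring
  rw [Finset.sum_congr rfl fun i _ => key (b i)]
  have hsum : ∑ i, ⟪x, b i⟫ * ⟪x, b i⟫ = ‖x‖ ^ 2 := by
    have h := b.sum_inner_mul_inner x x
    rw [real_inner_self_eq_norm_sq] at h
    rw [← h]
    refine Finset.sum_congr rfl fun i _ => ?_
    rw [real_inner_comm x (b i)]
  have hone : ∀ i, ⟪b i, b i⟫ = (1 : ℝ) := by
    intro i
    rw [real_inner_self_eq_norm_sq, b.norm_eq_one]; norm_num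
  rw [← Complex.ofReal_sum]
  congr 1
  rw [Finset.sum_add_distrib]
  have h1 : ∑ i, deriv (deriv φ) (‖x‖ ^ 2) * (2 * ⟪x, b i⟫) * (2 * ⟪x, b i⟫)
      = 4 * ‖x‖ ^ 2 * deriv (deriv φ) (‖x‖ ^ 2) := by
    rw [← hsum, Finset.mul_sum, Finset.sum_mul]
    refine Finset.sum_congr rfl fun i _ => by ring
  rw [h1]
  simp only [hone]
  rw [Finset.sum_const, Finset.card_univ, Fintype.card_fin, nsmul_eq_mul]
  ring

/-- product rule with a radial function -/
theorem laplacian_rad_mul {φ : ℝ → ℝ} {g : E → ℂ} {x : E} (hφ : ContDiffAt ℝ 2 φ (‖x‖ ^ 2))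
    (hg : ContDiffAt ℝ 2 g x) :
    Δ (fun y => rad φ y * g y) x
      = ((φ (‖x‖ ^ 2) : ℝ) : ℂ) * Δ g x
        + ((4 * deriv φ (‖x‖ ^ 2) : ℝ) : ℂ) * fderiv ℝ g x x
        + ((4 * ‖x‖ ^ 2 * deriv (deriv φ) (‖x‖ ^ 2)
          + 2 * (Module.finrank ℝ E) * deriv φ (‖x‖ ^ 2) : ℝ) : ℂ) * g x := by
  set b := stdOrthonormalBasis ℝ E with hb
  rw [laplacian_mul b (contDiffAt_rad hφ) hg, laplacian_rad hφ]
  have h1 : ∑ i, fderiv ℝ (rad (E := E) φ) x (b i) * fderiv ℝ g x (b i)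
      = ((2 * deriv φ (‖x‖ ^ 2) : ℝ) : ℂ) * fderiv ℝ g x x := by
    have h2 : fderiv ℝ g x x = ∑ i, ((⟪b i, x⟫ : ℝ) : ℂ) * fderiv ℝ g x (b i) := by
      conv_lhs => rw [← b.sum_repr' x, map_sum]
      refine Finset.sum_congr rfl fun i _ => ?_
      rw [map_smul, b.sum_repr' x]
      simp
    rw [h2, Finset.mul_sum]
    refine Finset.sum_congr rfl fun i _ => ?_
    rw [fderiv_rad (hφ.differentiableAt (by norm_num)), real_inner_comm]
    push_cast
    ring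
  rw [h1]
  have h3 : rad φ x = ((φ (‖x‖ ^ 2) : ℝ) : ℂ) := rfl
  rw [h3]
  push_cast
  ring

end Pool.Agent.Helper78.Sph
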