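import Mathlib
import Pool.Agent.Helper78.Sph.Calc

/-!
Functions on the sphere as homogeneous functions of degree `0`; orthogonality of eigenfunctions
of the spherical Laplacian.
-/

namespace Pool.Agent.Helper78.Sph

open Laplacian Filter Topology MeasureTheory
open scoped RealInnerProductSpace ContDiff

variable {E : Type*} [NormedAddCommGroup E] [InnerProductSpace ℝ E] [FiniteDimensional ℝ E]

lemma two_le : (2 : WithTop ℕ∞) ≤ ∞ := by
  exact ENat.LEInfty.out

/-- homogeneity of degree `k` under positive dilations -/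
def Hom (k : ℕ) (F : E → ℂ) : Prop := ∀ t : ℝ, 0 < t → ∀ x, F (t • x) = (t : ℂ) ^ k * F x

omit [FiniteDimensional ℝ E] in
/-- Euler's relation -/
lemma euler {k : ℕ} {F : E → ℂ} (hF : Hom k F) {x : E} (hd : DifferentiableAt ℝ F x) :
    fderiv ℝ F x x = k * F x := by
  have h1 : HasDerivAt (fun t : ℝ => t • x) ((1 : ℝ) • x) 1 :=
    (hasDerivAt_id (1 : ℝ)).smul_const x
  have hd' : HasFDerivAt F (fderiv ℝ F x) ((1 : ℝ) • x) := by
    rw [one_smul]; exact hd.hasFDerivAt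
  have h2 : HasDerivAt (fun t : ℝ => F (t • x)) (fderiv ℝ F x ((1 : ℝ) • x)) 1 :=
    hd'.comp_hasDerivAt (1 : ℝ) h1
  have h3 : HasDerivAt (fun t : ℝ => ((t : ℂ) ^ k * F x)) ((k : ℂ) * F x) 1 := by
    have h4 : HasDerivAt (fun t : ℝ => (t : ℂ)) 1 1 := Complex.ofRealCLM.hasDerivAt
    have h5 := (h4.pow k).mul_const (F x)
    simpa using h5
  have h6 : (fun t : ℝ => F (t • x)) =ᶠ[𝓝 1] fun t : ℝ => ((t : ℂ) ^ k * F x) := by
    filter_upwards [lt_mem_nhds (show (0 : ℝ) < 1 by norm_num)] with t ht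
    exact hF t ht x
  have h7 := h2.unique (h3.congr_of_eventuallyEq h6)
  rw [one_smul] at h7
  exact h7

omit [FiniteDimensional ℝ E] in
lemma fderiv_scale {F : E → ℂ} {t : ℝ} (ht : t ≠ 0) {c : ℂ} (hF : ∀ x, F (t • x) = c * F x)
    (x v : E) : (t : ℂ) * fderiv ℝ F (t • x) v = c * fderiv ℝ F x v := by
  let L : E ≃L[ℝ] E := ContinuousLinearEquiv.smulLeft (Units.mk0 t ht)
  have hL : ∀ y, L y = t • y := fun y => rfl
  have h1 := L.comp_right_fderiv (f := F) (x := x)
  have h2 : F ∘ L = fun y => c * F y := by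
    funext y
    rw [Function.comp_apply, hL, hF]
  rw [h2] at h1
  have h3 : fderiv ℝ (fun y => c * F y) x = c • fderiv ℝ F x := by
    have h5 : (fun y => c * F y) = c • F := by
      funext y; simp
    rw [h5, fderiv_const_smul_field]
    rfl
  rw [h3] at h1
  have h4 := congrArg (fun A : E →L[ℝ] ℂ => A v) h1
  simp only [smul_apply, smul_eq_mul, ContinuousLinearMap.comp_apply] at h4
  rw [h4]
  change (t : ℂ) * fderiv ℝ F (t • x) v = fderiv ℝ F (t • x) (t • v)
  rw [map_smul]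
  simp

/-- scaling of the Laplacian of a function homogeneous of degree zero -/
lemma laplacian_scale {F : E → ℂ} {t : ℝ} (ht : t ≠ 0) (hF : ∀ x, F (t • x) = F x) {x : E}
    (hx : ContDiffAt ℝ 2 F x) (hx' : ContDiffAt ℝ 2 F (t • x)) :
    (t : ℂ) ^ 2 * Δ F (t • x) = Δ F x := by
  set b := stdOrthonormalBasis ℝ E with hb
  rw [laplacian_eq b hx, laplacian_eq b hx', Finset.mul_sum]
  refine Finset.sum_congr rfl fun i _ => ?_
  have h1 : ∀ y, (fun y => fderiv ℝ F y (b i)) (t • y)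
      = (t : ℂ)⁻¹ * (fun y => fderiv ℝ F y (b i)) y := by
    intro y
    have h2 := fderiv_scale (F := F) ht (c := 1) (fun x => by rw [hF, one_mul]) y (b i)
    rw [one_mul] at h2
    have ht' : (t : ℂ) ≠ 0 := by exact_mod_cast ht
    change fderiv ℝ F (t • y) (b i) = (t : ℂ)⁻¹ * fderiv ℝ F y (b i)
    rw [← h2]
    field_simp
  have h3 := fderiv_scale (F := fun y => fderiv ℝ F y (b i)) ht h1 x (b i)
  have ht' : (t : ℂ) ≠ 0 := by exact_mod_cast ht
  rw [pow_two, mul_assoc, h3]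
  field_simp

/-- eigenfunctions of the spherical Laplacian, extended homogeneously of degree zero -/
structure Eig (lam : ℝ) (F : E → ℂ) : Prop where
  hom : ∀ t : ℝ, 0 < t → ∀ x, F (t • x) = F x
  smooth : ContDiffOn ℝ ∞ F {0}ᶜ
  eig : ∀ x : E, ‖x‖ = 1 → Δ F x = -(lam : ℂ) * F x

omit [FiniteDimensional ℝ E] in
lemma smooth_at {F : E → ℂ} (h : ContDiffOn ℝ ∞ F {0}ᶜ) {x : E} (hx : x ≠ 0) :
    ContDiffAt ℝ ∞ F x :=
  h.contDiffAt (isOpen_compl_singleton.mem_nhds hx)

lemma Eig.eig' {lam : ℝ} {F : E → ℂ} (h : Eig lam F) {x : E} (hx : x ≠ 0) :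
    Δ F x = -(lam : ℂ) * F x / ((‖x‖ ^ 2 : ℝ) : ℂ) := by
  have hn : 0 < ‖x‖ := norm_pos_iff.mpr hx
  set t : ℝ := ‖x‖⁻¹ with ht
  have ht0 : 0 < t := inv_pos.mpr hn
  have hy : ‖t • x‖ = 1 := by
    rw [norm_smul, Real.norm_of_nonneg ht0.le, ht, inv_mul_cancel₀ hn.ne']
  have hy0 : t • x ≠ 0 := by
    intro h0; rw [h0, norm_zero] at hy; exact zero_ne_one hy
  have h1 := laplacian_scale ht0.ne' (h.hom t ht0)
    ((smooth_at h.smooth hx).of_le two_le)
    ((smooth_at h.smooth hy0).of_le two_le)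
  rw [h.eig _ hy, h.hom t ht0] at h1
  rw [← h1, ht]
  push_cast
  have : (‖x‖ : ℂ) ≠ 0 := by exact_mod_cast hn.ne'
  field_simp

omit [FiniteDimensional ℝ E] in
/-- smooth cutoff of a function which is smooth away from the origin -/
lemma cut_smooth {θ : ℝ → ℝ} (hθ : ContDiff ℝ ∞ θ) {a : ℝ} (ha : 0 < a)
    (h0 : ∀ s, s ≤ a → θ s = 0) {H : E → ℂ} (hH : ContDiffOn ℝ ∞ H {0}ᶜ) :
    ContDiff ℝ ∞ (fun y => rad θ y * H y) := by
  rw [contDiff_iff_contDiffAt]
  intro x
  by_cases hx : x = 0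
  · have h1 : (fun y => rad θ y * H y) =ᶠ[𝓝 x] fun _ => 0 := by
      have h2 : Tendsto (fun y : E => ‖y‖ ^ 2) (𝓝 x) (𝓝 (‖x‖ ^ 2)) :=
        (continuous_norm.pow 2).tendsto x
      have h3 : ∀ᶠ y : E in 𝓝 x, ‖y‖ ^ 2 < a := by
        apply h2.eventually_lt_const
        rw [hx]; simpa using ha
      filter_upwards [h3] with y hy
      rw [rad, h0 _ hy.le]; simp
    exact contDiffAt_const.congr_of_eventuallyEq h1
  · exact (contDiffAt_rad hθ.contDiffAt).mul (smooth_at hH hx)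

lemma cut_compact {θ : ℝ → ℝ} {b : ℝ} (h1 : ∀ s, b ≤ s → θ s = 0) (H : E → ℂ) :
    HasCompactSupport (fun y => rad θ y * H y) := by
  have : ProperSpace E := FiniteDimensional.proper_rclike ℝ E
  apply HasCompactSupport.intro (isCompact_closedBall (0 : E) (|b| + 1))
  intro y hy
  rw [mem_closedBall_zero_iff, not_le] at hy
  have h2 : b ≤ ‖y‖ ^ 2 := by
    have h3 : b ≤ |b| := le_abs_self b
    have h4 : 0 ≤ |b| := abs_nonneg b
    nlinarith
  rw [rad, h1 _ h2]; simp

/-- the cutoff used for the inner product -/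
noncomputable def bmp : ContDiffBump (1 : ℝ) := ⟨1 / 4, 1 / 2, by norm_num, by norm_num⟩

/-- an auxiliary larger cutoff -/
noncomputable def bmp2 : ContDiffBump (1 : ℝ) := ⟨3 / 5, 4 / 5, by norm_num, by norm_num⟩

lemma bmp_zero {s : ℝ} (h : s ∉ Set.Ioo (1 / 2 : ℝ) (3 / 2)) : bmp s = 0 := by
  apply bmp.zero_of_le_dist
  rw [Real.dist_eq]
  change (1 / 2 : ℝ) ≤ |s - 1|
  rw [Set.mem_Ioo, not_and_or] at h
  rcases h with h | h
  · rw [le_abs]; right; linarith
  · rw [le_abs]; left; linarith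

lemma bmp2_zero {s : ℝ} (h : s ∉ Set.Ioo (1 / 5 : ℝ) (9 / 5)) : bmp2 s = 0 := by
  apply bmp2.zero_of_le_dist
  rw [Real.dist_eq]
  change (4 / 5 : ℝ) ≤ |s - 1|
  rw [Set.mem_Ioo, not_and_or] at h
  rcases h with h | h
  · rw [le_abs]; right; linarith
  · rw [le_abs]; left; linarith

lemma bmp2_one {s : ℝ} (h : s ∈ Set.Icc (1 / 2 : ℝ) (3 / 2)) : (bmp2 : ℝ → ℝ) =ᶠ[𝓝 s] 1 := by
  apply bmp2.eventuallyEq_one_of_mem_ball
  rw [Metric.mem_ball, Real.dist_eq]
  change |s - 1| < 3 / 5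
  rw [abs_lt]
  constructor <;> linarith [h.1, h.2]

/-- the function `s ↦ s β(s)` -/
noncomputable def phi (s : ℝ) : ℝ := s * bmp s

lemma phi_smooth : ContDiff ℝ ∞ phi := contDiff_id.mul bmp.contDiff

lemma phi_zero {s : ℝ} (h : s ∉ Set.Ioo (1 / 2 : ℝ) (3 / 2)) : phi s = 0 := by
  rw [phi, bmp_zero h, mul_zero]

/-- the coefficient in the Laplacian of the cutoff -/
noncomputable def cphi (n : ℕ) (s : ℝ) : ℝ := 4 * s * deriv (deriv phi) s + 2 * n * deriv phi s

lemma deriv_smooth {f : ℝ → ℝ} (hf : ContDiff ℝ ∞ f) : ContDiff ℝ ∞ (deriv f) := by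
  have h2 : deriv f = fun t => fderiv ℝ f t 1 := by
    funext t; rw [fderiv_apply_one_eq_deriv]
  rw [h2]
  exact (hf.fderiv_right (m := ∞) (by simp)).clm_apply contDiff_const

lemma cphi_smooth (n : ℕ) : ContDiff ℝ ∞ (cphi n) := by
  have h1 := deriv_smooth phi_smooth
  have h2 := deriv_smooth h1
  exact ((contDiff_const.mul contDiff_id).mul h2).add (contDiff_const.mul h1)

lemma phi_ev_zero {s : ℝ} (h : s ∉ Set.Icc (1 / 2 : ℝ) (3 / 2)) : phi =ᶠ[𝓝 s] fun _ => 0 := by
  have h1 : ∀ᶠ t in 𝓝 s, t ∉ Set.Icc (1 / 2 : ℝ) (3 / 2) :=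
    isClosed_Icc.isOpen_compl.mem_nhds h
  filter_upwards [h1] with t ht
  exact phi_zero fun h2 => ht (Set.Ioo_subset_Icc_self h2)

lemma cphi_zero (n : ℕ) {s : ℝ} (h : s ∉ Set.Icc (1 / 2 : ℝ) (3 / 2)) : cphi n s = 0 := by
  have h1 := phi_ev_zero h
  have h2 : deriv phi =ᶠ[𝓝 s] deriv (fun _ => 0) := h1.deriv
  have h3 : deriv phi s = 0 := by rw [h2.eq_of_nhds]; simp
  have h4 : deriv (deriv phi) s = 0 := by rw [h2.deriv_eq]; simp
  rw [cphi, h3, h4]; ring

variable [MeasurableSpace E] [BorelSpace E] (μ : Measure E) [μ.IsAddHaarMeasure]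

/-- Green's identity for cut off functions. -/
lemma green {F G : E → ℂ} {lam mu : ℝ} (hF : Eig lam F) (hG : Eig mu G) :
    ∫ x, F x * (-(mu : ℂ) * (rad bmp x * G x) + rad (cphi (Module.finrank ℝ E)) x * G x) ∂μ
      = ∫ x, -(lam : ℂ) * (rad bmp x * F x) * G x ∂μ := by
  set n := Module.finrank ℝ E with hn
  have hA : ContDiff ℝ ∞ (fun y => rad bmp2 y * F y) :=
    cut_smooth bmp2.contDiff (a := 1 / 5) (by norm_num)
      (fun s hs => bmp2_zero fun h => by linarith [h.1]) hF.smooth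
  have hAc : HasCompactSupport (fun y => rad bmp2 y * F y) :=
    cut_compact (b := 9 / 5) (fun s hs => bmp2_zero fun h => by linarith [h.2]) F
  have hB : ContDiff ℝ ∞ (fun y => rad phi y * G y) :=
    cut_smooth phi_smooth (a := 1 / 2) (by norm_num)
      (fun s hs => phi_zero fun h => by linarith [h.1]) hG.smooth
  have hBc : HasCompactSupport (fun y => rad phi y * G y) :=
    cut_compact (b := 3 / 2) (fun s hs => phi_zero fun h => by linarith [h.2]) G
  have key := SchwartzMap.integral_mul_laplacian_right_eq_left (μ := μ)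
    (hAc.toSchwartzMap hA) (hBc.toSchwartzMap hB)
  have hL : ∀ x, (hAc.toSchwartzMap hA) x * Δ (hBc.toSchwartzMap hB) x
      = F x * (-(mu : ℂ) * (rad bmp x * G x) + rad (cphi n) x * G x) := by
    intro x
    rw [SchwartzMap.laplacian_apply]
    change rad bmp2 x * F x * Δ (fun y => rad phi y * G y) x = _
    by_cases hs : ‖x‖ ^ 2 ∈ Set.Icc (1 / 2 : ℝ) (3 / 2)
    · have hx : x ≠ 0 := by
        rintro rfl
        rw [norm_zero] at hs
        have := hs.1
        norm_num at this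
      have hn2 : (0 : ℝ) < ‖x‖ ^ 2 := by have := hs.1; linarith
      have h1 : rad bmp2 x = 1 := by
        rw [rad, (bmp2_one hs).eq_of_nhds]; simp
      have h2 := laplacian_rad_mul (x := x) (g := G)
        (phi_smooth.contDiffAt.of_le two_le)
        ((smooth_at hG.smooth hx).of_le two_le)
      have h3 : fderiv ℝ G x x = 0 := by
        have h4 : Hom 0 G := fun t ht y => by rw [hG.hom t ht, pow_zero, one_mul]
        have h5 := euler h4 ((smooth_at hG.smooth hx).differentiableAt (by simp))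
        simpa using h5
      rw [h2, h3, hG.eig' hx, h1, ← hn, rad, rad, phi, cphi]
      have h6 : (‖x‖ : ℂ) ≠ 0 := by exact_mod_cast (norm_pos_iff.mpr hx).ne'
      push_cast
      field_simp
      ring
    · have h1 : (fun y => rad phi y * G y) =ᶠ[𝓝 x] fun _ => 0 := by
        have h2 : Tendsto (fun y : E => ‖y‖ ^ 2) (𝓝 x) (𝓝 (‖x‖ ^ 2)) :=
          (continuous_norm.pow 2).tendsto x
        filter_upwards [h2.eventually (phi_ev_zero hs)] with y hy
        rw [rad, hy]; simp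
      rw [(InnerProductSpace.laplacian_congr_nhds h1).eq_of_nhds]
      rw [rad, rad, rad, bmp_zero (fun h => hs (Set.Ioo_subset_Icc_self h)), cphi_zero n hs]
      simp
  have hR : ∀ x, Δ (hAc.toSchwartzMap hA) x * (hBc.toSchwartzMap hB) x
      = -(lam : ℂ) * (rad bmp x * F x) * G x := by
    intro x
    rw [SchwartzMap.laplacian_apply]
    change Δ (fun y => rad bmp2 y * F y) x * (rad phi x * G x) = _
    by_cases hs : ‖x‖ ^ 2 ∈ Set.Icc (1 / 2 : ℝ) (3 / 2)
    · have hx : x ≠ 0 := by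
        rintro rfl
        rw [norm_zero] at hs
        have := hs.1
        norm_num at this
      have hn2 : (0 : ℝ) < ‖x‖ ^ 2 := by have := hs.1; linarith
      have h1 : (fun y => rad bmp2 y * F y) =ᶠ[𝓝 x] F := by
        have h2 : Tendsto (fun y : E => ‖y‖ ^ 2) (𝓝 x) (𝓝 (‖x‖ ^ 2)) :=
          (continuous_norm.pow 2).tendsto x
        filter_upwards [h2.eventually (bmp2_one hs)] with y hy
        rw [rad, hy]; simp
      rw [(InnerProductSpace.laplacian_congr_nhds h1).eq_of_nhds, hF.eig' hx, rad, rad, phi]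
      have h6 : (‖x‖ : ℂ) ≠ 0 := by exact_mod_cast (norm_pos_iff.mpr hx).ne'
      push_cast
      field_simp
    · have h7 : ‖x‖ ^ 2 ∉ Set.Ioo (1 / 2 : ℝ) (3 / 2) := fun h => hs (Set.Ioo_subset_Icc_self h)
      rw [rad, rad, phi_zero h7, bmp_zero h7]
      simp
  simp only [hL, hR] at key
  exact key

lemma integrable_cut {θ : ℝ → ℝ} (hθ : ContDiff ℝ ∞ θ) (h0 : ∀ s, s ∉ Set.Icc (1 / 2 : ℝ) (3 / 2) →
    θ s = 0) {H : E → ℂ} (hH : ContDiffOn ℝ ∞ H {0}ᶜ) :
    Integrable (fun x => rad θ x * H x) μ :=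
  (cut_smooth hθ (a := 1 / 4) (by norm_num) (fun s hs => h0 s fun h => by linarith [h.1])
    hH).continuous.integrable_of_hasCompactSupport
    (cut_compact (b := 2) (fun s hs => h0 s fun h => by linarith [h.2]) H)

/-- Eigenfunctions with different eigenvalues are orthogonal. -/
theorem orth {F G : E → ℂ} {lam mu : ℝ} (hF : Eig lam F) (hG : Eig mu G) (hne : lam ≠ mu) :
    ∫ x, rad bmp x * (F x * G x) ∂μ = 0 := by
  set n := Module.finrank ℝ E with hn
  have hFG : ContDiffOn ℝ ∞ (fun x => F x * G x) {0}ᶜ := hF.smooth.mul hG.smooth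
  have hb0 : ∀ s, s ∉ Set.Icc (1 / 2 : ℝ) (3 / 2) → bmp s = 0 := fun s hs =>
    bmp_zero fun h => hs (Set.Ioo_subset_Icc_self h)
  have hI1 := integrable_cut μ bmp.contDiff hb0 hFG
  have hI2 := integrable_cut μ (cphi_smooth n) (fun s hs => cphi_zero n hs) hFG
  set I := ∫ x, rad bmp x * (F x * G x) ∂μ with hI
  set C := ∫ x, rad (cphi n) x * (F x * G x) ∂μ with hC
  have h1 : ∀ (a : ℂ), ∫ x, (a * (rad bmp x * (F x * G x)) + rad (cphi n) x * (F x * G x)) ∂μ
      = a * I + C := by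
    intro a
    rw [integral_add (hI1.const_mul a) hI2, integral_const_mul]
  have g1 := green μ hF hG
  have g2 := green μ hG hF
  have e1 : ∫ x, F x * (-(mu : ℂ) * (rad bmp x * G x) + rad (cphi n) x * G x) ∂μ
      = -(mu : ℂ) * I + C := by
    rw [← h1]
    congr 1
    funext x
    ring
  have e2 : ∫ x, -(lam : ℂ) * (rad bmp x * F x) * G x ∂μ = -(lam : ℂ) * I := by
    rw [hI, ← integral_const_mul]
    congr 1
    funext x
    ring
  have e3 : ∫ x, G x * (-(lam : ℂ) * (rad bmp x * F x) + rad (cphi n) x * F x) ∂μ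
      = -(lam : ℂ) * I + C := by
    rw [← h1]
    congr 1
    funext x
    ring
  have e4 : ∫ x, -(mu : ℂ) * (rad bmp x * G x) * F x ∂μ = -(mu : ℂ) * I := by
    rw [hI, ← integral_const_mul]
    congr 1
    funext x
    ring
  rw [← hn, e1, e2] at g1
  rw [← hn, e3, e4] at g2
  have h5 : ((lam : ℂ) - mu) * I = 0 := by linear_combination (1 / 2 : ℂ) * (g1 - g2)
  rcases mul_eq_zero.mp h5 with h6 | h6
  · exfalso
    apply hne
    have := sub_eq_zero.mp h6
    exact_mod_cast this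
  · exact h6

end Pool.Agent.Helper78.Sph
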