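import Mathlib
import Pool.Agent.Helper78.Harm
import Pool.Agent.Helper78.Sph.Homog

/-!
Polynomials as functions on Euclidean space; harmonic polynomials give eigenfunctions.
-/

namespace Pool.Agent.Helper78.Sph

open Laplacian Filter Topology MeasureTheory MvPolynomial
open scoped RealInnerProductSpace ContDiff
open Pool.Agent.Helper78.Harm Pool.Agent.Helper78.Act Pool.Agent.Helper78.Eigen

/-- Euclidean space -/
abbrev EN (N : ℕ) := EuclideanSpace ℝ (Fin N)

/-- evaluation of polynomials at points of Euclidean space -/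
noncomputable def pev {N : ℕ} (P : MvPolynomial (Fin N) ℂ) (x : EN N) : ℂ :=
  MvPolynomial.eval (fun i => ((x i : ℝ) : ℂ)) P

variable {N : ℕ}

lemma pev_C (c : ℂ) (x : EN N) : pev (C c) x = c := by simp [pev]

lemma pev_X (i : Fin N) (x : EN N) : pev (X i) x = ((x i : ℝ) : ℂ) := by simp [pev]

lemma pev_add (p q : MvPolynomial (Fin N) ℂ) (x : EN N) : pev (p + q) x = pev p x + pev q x := by
  simp [pev]

lemma pev_sub (p q : MvPolynomial (Fin N) ℂ) (x : EN N) : pev (p - q) x = pev p x - pev q x := by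
  simp [pev]

lemma pev_mul (p q : MvPolynomial (Fin N) ℂ) (x : EN N) : pev (p * q) x = pev p x * pev q x := by
  simp [pev]

lemma pev_smul (c : ℂ) (q : MvPolynomial (Fin N) ℂ) (x : EN N) :
    pev (c • q) x = c * pev q x := by
  simp [pev]

lemma pev_zero (x : EN N) : pev (0 : MvPolynomial (Fin N) ℂ) x = 0 := by
  simp [pev]

lemma pev_sum {ι : Type*} (s : Finset ι) (p : ι → MvPolynomial (Fin N) ℂ) (x : EN N) :
    pev (∑ i ∈ s, p i) x = ∑ i ∈ s, pev (p i) x := by
  simp [pev, map_sum]

/-- a coordinate as a complex valued continuous linear map -/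
noncomputable def coordL (i : Fin N) : EN N →L[ℝ] ℂ :=
  Complex.ofRealCLM.comp (EuclideanSpace.proj i)

lemma coordL_apply (i : Fin N) (x : EN N) : coordL i x = ((x i : ℝ) : ℂ) := rfl

lemma pev_smooth (P : MvPolynomial (Fin N) ℂ) : ContDiff ℝ ∞ (pev P) := by
  induction P using MvPolynomial.induction_on with
  | C a =>
    have : pev (C a : MvPolynomial (Fin N) ℂ) = fun _ => a := by
      funext x; exact pev_C a x
    rw [this]; exact contDiff_const
  | add p q hp hq =>
    have : pev (p + q) = fun x => pev p x + pev q x := by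
      funext x; exact pev_add p q x
    rw [this]; exact hp.add hq
  | mul_X p n hp =>
    have : pev (p * X n) = fun x => pev p x * coordL n x := by
      funext x; rw [pev_mul, pev_X, coordL_apply]
    rw [this]; exact hp.mul (coordL n).contDiff

lemma pev_diff (P : MvPolynomial (Fin N) ℂ) (x : EN N) : DifferentiableAt ℝ (pev P) x :=
  (pev_smooth P).contDiffAt.differentiableAt (by simp)

lemma fderiv_pev (P : MvPolynomial (Fin N) ℂ) (x v : EN N) :
    fderiv ℝ (pev P) x v = ∑ i, ((v i : ℝ) : ℂ) * pev (pderiv i P) x := by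
  induction P using MvPolynomial.induction_on with
  | C a =>
    have : pev (C a : MvPolynomial (Fin N) ℂ) = fun _ => a := by
      funext x; exact pev_C a x
    rw [this]
    simp [pev_zero]
  | add p q hp hq =>
    have : pev (p + q) = fun x => pev p x + pev q x := by
      funext x; exact pev_add p q x
    rw [this, fderiv_fun_add (pev_diff p x) (pev_diff q x), add_apply, hp, hq,
      ← Finset.sum_add_distrib]
    refine Finset.sum_congr rfl fun i _ => ?_
    rw [map_add, pev_add]; ring
  | mul_X p n hp =>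
    have : pev (p * X n) = fun x => pev p x * coordL n x := by
      funext x; rw [pev_mul, pev_X, coordL_apply]
    rw [this, fderiv_fun_mul (pev_diff p x) (coordL n).differentiableAt, add_apply, smul_apply,
      smul_apply, hp, (coordL n).fderiv, coordL_apply, coordL_apply]
    have h1 : ∀ i, ((v i : ℝ) : ℂ) * pev (pderiv i (p * X n)) x
        = ((x n : ℝ) : ℂ) * (((v i : ℝ) : ℂ) * pev (pderiv i p) x)
          + (if i = n then ((v n : ℝ) : ℂ) * pev p x else 0) := by
      intro i
      rw [Derivation.leibniz, pev_add]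
      by_cases hi : i = n
      · subst hi
        rw [pderiv_X_self, if_pos rfl]
        simp only [smul_eq_mul, mul_one, pev_mul, pev_X]
        ring
      · rw [pderiv_X_of_ne (Ne.symm hi), if_neg hi]
        simp only [smul_eq_mul, mul_zero, pev_mul, pev_X, pev_zero]
        ring
    rw [Finset.sum_congr rfl fun i _ => h1 i, Finset.sum_add_distrib, ← Finset.mul_sum,
      Finset.sum_ite_eq' Finset.univ n, if_pos (Finset.mem_univ n)]
    simp only [smul_eq_mul]
    ring

lemma fderiv_pev_basis (P : MvPolynomial (Fin N) ℂ) (x : EN N) (i : Fin N) :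
    fderiv ℝ (pev P) x (EuclideanSpace.basisFun (Fin N) ℝ i) = pev (pderiv i P) x := by
  rw [fderiv_pev, Finset.sum_eq_single i]
  · simp
  · intro j _ hj
    simp [hj]
  · simp

lemma laplacian_pev (P : MvPolynomial (Fin N) ℂ) (x : EN N) :
    Δ (pev P) x = pev (lap N P) x := by
  rw [laplacian_eq (EuclideanSpace.basisFun (Fin N) ℝ)
    ((pev_smooth P).contDiffAt.of_le two_le), lap_apply, pev_sum]
  refine Finset.sum_congr rfl fun i _ => ?_
  have h1 : (fun y => fderiv ℝ (pev P) y (EuclideanSpace.basisFun (Fin N) ℝ i))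
      = pev (pderiv i P) := by
    funext y; exact fderiv_pev_basis P y i
  rw [h1, fderiv_pev_basis]

lemma pev_hom {k : ℕ} {P : MvPolynomial (Fin N) ℂ} (hP : P.IsHomogeneous k) :
    Hom k (pev P) := by
  intro t _ x
  rw [pev, pev, MvPolynomial.eval_eq', MvPolynomial.eval_eq', Finset.mul_sum]
  refine Finset.sum_congr rfl fun s hs => ?_
  have h2 : s.degree = k := by
    by_contra hne
    exact (MvPolynomial.mem_support_iff.mp hs) (hP.coeff_eq_zero hne)
  have h1 : ∀ i, (((t • x) i : ℝ) : ℂ) = (t : ℂ) * ((x i : ℝ) : ℂ) := fun i => by simp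
  simp only [h1, mul_pow, Finset.prod_mul_distrib]
  rw [Finset.prod_pow_eq_pow_sum, ← Finsupp.degree_eq_sum, h2]
  ring

/-- the degree-zero homogeneous function attached to a homogeneous polynomial -/
noncomputable def hfun (k : ℕ) (P : MvPolynomial (Fin N) ℂ) (x : EN N) : ℂ :=
  rad (fun s => s ^ (-(k : ℝ) / 2)) x * pev P x

lemma rad_scale {a t : ℝ} (ht : 0 < t) (x : EN N) :
    rad (fun s => s ^ a) (t • x) = ((t ^ (2 * a) : ℝ) : ℂ) * rad (fun s => s ^ a) x := by
  rw [rad, rad, norm_smul, Real.norm_of_nonneg ht.le, mul_pow, Real.mul_rpow (by positivity)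
    (by positivity), ← Real.rpow_natCast t 2, ← Real.rpow_mul ht.le]
  push_cast
  rfl

lemma hfun_unit {k : ℕ} {P : MvPolynomial (Fin N) ℂ} {x : EN N} (hx : ‖x‖ = 1) :
    hfun k P x = pev P x := by
  rw [hfun, rad, hx]; simp

/-- harmonic polynomials give eigenfunctions -/
theorem eig_hfun {k : ℕ} {P : MvPolynomial (Fin N) ℂ} (hP : P.IsHomogeneous k)
    (hl : lap N P = 0) : Eig ((k : ℝ) * (k + N - 2)) (hfun k P) := by
  refine ⟨?_, ?_, ?_⟩
  · intro t ht x
    rw [hfun, hfun, rad_scale ht, pev_hom hP t ht]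
    have h1 : (t ^ (2 * (-(k : ℝ) / 2)) : ℝ) = (t ^ k)⁻¹ := by
      rw [show 2 * (-(k : ℝ) / 2) = -(k : ℝ) by ring, Real.rpow_neg ht.le, Real.rpow_natCast]
    rw [h1]
    have h2 : (t : ℂ) ^ k ≠ 0 := pow_ne_zero _ (by exact_mod_cast ht.ne')
    push_cast
    field_simp
  · intro x hx
    have hx0 : x ≠ 0 := hx
    have hn : ‖x‖ ^ 2 ≠ 0 := pow_ne_zero _ (norm_ne_zero_iff.mpr hx0)
    refine ContDiffAt.contDiffWithinAt ?_
    refine (contDiffAt_rad ?_).mul (pev_smooth P).contDiffAt
    exact Real.contDiffAt_rpow_const_of_ne hn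
  · intro x hx
    set p : ℝ := -(k : ℝ) / 2 with hp
    have hn : ‖x‖ ^ 2 = 1 := by rw [hx]; norm_num
    have hφ : ContDiffAt ℝ 2 (fun s : ℝ => s ^ p) (‖x‖ ^ 2) := by
      rw [hn]; exact Real.contDiffAt_rpow_const_of_ne one_ne_zero
    have h1 := laplacian_rad_mul (x := x) (g := pev P) hφ
      ((pev_smooth P).contDiffAt.of_le two_le)
    have hfe : hfun k P = fun y => rad (fun s => s ^ p) y * pev P y := by
      funext y; rw [hfun]
    rw [hfe, h1, laplacian_pev, hl, pev_zero, euler (pev_hom hP) (pev_diff P x), hn]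
    have hd : deriv (fun s : ℝ => s ^ p) =ᶠ[𝓝 1] fun s => p * s ^ (p - 1) := by
      filter_upwards [lt_mem_nhds (show (0 : ℝ) < 1 by norm_num)] with s hs
      exact Real.deriv_rpow_const s p
    have hd1 : deriv (fun s : ℝ => s ^ p) 1 = p := by
      rw [hd.eq_of_nhds]; simp
    have hd2 : deriv (deriv (fun s : ℝ => s ^ p)) 1 = p * (p - 1) := by
      rw [hd.deriv_eq, deriv_const_mul]
      · rw [Real.deriv_rpow_const]; simp
      · exact (Real.contDiffAt_rpow_const_of_ne (n := 1) one_ne_zero).differentiableAt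
          (by norm_num)
    have hr : rad (fun s => s ^ p) x = 1 := by
      rw [rad, hn]; simp
    rw [hd1, hd2]
    change _ = _ * (rad (fun s => s ^ p) x * pev P x)
    rw [hr]
    simp only [finrank_euclideanSpace, Fintype.card_fin, Real.one_rpow]
    rw [hp]
    push_cast
    ring

end Pool.Agent.Helper78.Sph
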