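import Mathlib
import Pool.Agent.Helper78.Sph.Poly

/-!
Every homogeneous polynomial is a combination of products of powers of `r²` and harmonic
polynomials.
-/

namespace Pool.Agent.Helper78.Sph

open MvPolynomial
open Pool.Agent.Helper78.Harm Pool.Agent.Helper78.Act Pool.Agent.Helper78.Eigen

variable {N : ℕ}

/-- the polynomial `r²` -/
noncomputable def r2 (N : ℕ) : MvPolynomial (Fin N) ℂ := ∑ i, X i * X i

lemma r2_homog : (r2 N).IsHomogeneous 2 := by
  refine IsHomogeneous.sum _ _ _ fun i _ => ?_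
  exact (isHomogeneous_X ℂ i).mul (isHomogeneous_X ℂ i)

lemma pderiv_r2 (i : Fin N) : pderiv i (r2 N) = 2 * X i := by
  rw [r2, map_sum, Finset.sum_eq_single i]
  · rw [Derivation.leibniz, pderiv_X_self, smul_eq_mul, mul_one]; ring
  · intro j _ hj
    rw [Derivation.leibniz, pderiv_X_of_ne hj, smul_zero, add_zero]
  · simp

lemma pev_r2 (x : EN N) : pev (r2 N) x = ((‖x‖ ^ 2 : ℝ) : ℂ) := by
  rw [r2, pev_sum, EuclideanSpace.norm_sq_eq, Complex.ofReal_sum]
  refine Finset.sum_congr rfl fun i _ => ?_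
  rw [pev_mul, pev_X, Real.norm_eq_abs, sq_abs]
  push_cast
  ring

lemma lap_r2_mul {k : ℕ} {Q : MvPolynomial (Fin N) ℂ} (hQ : Q.IsHomogeneous k) :
    lap N (r2 N * Q) = C (2 * N + 4 * k : ℂ) * Q + r2 N * lap N Q := by
  rw [lap_apply, lap_apply]
  have h1 : ∀ i, pderiv i (pderiv i (r2 N * Q))
      = 2 * Q + 4 * (X i * pderiv i Q) + r2 N * pderiv i (pderiv i Q) := by
    intro i
    have h2 : pderiv i (2 : MvPolynomial (Fin N) ℂ) = 0 := by
      have h3 : (2 : MvPolynomial (Fin N) ℂ) = C 2 := (map_ofNat C 2).symm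
      rw [h3, pderiv_C]
    simp only [Derivation.leibniz, map_add, smul_eq_mul, pderiv_r2, pderiv_X_self, h2]
    ring
  rw [Finset.sum_congr rfl fun i _ => h1 i, Finset.sum_add_distrib, Finset.sum_add_distrib,
    ← Finset.mul_sum, ← Finset.mul_sum, ← Finset.mul_sum, hQ.sum_X_mul_pderiv, Finset.sum_const,
    Finset.card_univ, Fintype.card_fin]
  simp only [C_add, C_mul, nsmul_eq_mul, map_natCast]
  have h4 : (C 2 : MvPolynomial (Fin N) ℂ) = 2 := map_ofNat C 2
  have h5 : (C 4 : MvPolynomial (Fin N) ℂ) = 4 := by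
    exact (map_ofNat C 4)
  rw [h4, h5]
  ring

lemma lap_r2_pow_mul {j : ℕ} {h : MvPolynomial (Fin N) ℂ} (hh : h.IsHomogeneous j)
    (hl : lap N h = 0) (i : ℕ) :
    lap N (r2 N ^ (i + 1) * h) = C (2 * (i + 1) * (2 * i + 2 * j + N) : ℂ) * (r2 N ^ i * h) := by
  induction i with
  | zero =>
    rw [zero_add, pow_one, lap_r2_mul hh, hl, pow_zero]
    push_cast
    rw [mul_zero, add_zero, one_mul]
    congr 2
    ring
  | succ i ih =>
    have h1 : (r2 N ^ (i + 1) * h).IsHomogeneous (2 * (i + 1) + j) := (r2_homog.pow _).mul hh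
    rw [show r2 N ^ (i + 1 + 1) * h = r2 N * (r2 N ^ (i + 1) * h) by ring, lap_r2_mul h1, ih]
    have h2 : r2 N * (C (2 * (i + 1) * (2 * i + 2 * j + N) : ℂ) * (r2 N ^ i * h))
        = C (2 * (i + 1) * (2 * i + 2 * j + N) : ℂ) * (r2 N ^ (i + 1) * h) := by ring
    rw [h2, ← add_mul, ← C_add]
    congr 2
    push_cast
    ring

/-- combinations of products of powers of `r²` and harmonic polynomials -/
noncomputable def W (N k : ℕ) : Submodule ℂ (MvPolynomial (Fin N) ℂ) :=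
  Submodule.span ℂ {Q | ∃ (i j : ℕ) (h : MvPolynomial (Fin N) ℂ), 2 * i + j = k ∧
    h.IsHomogeneous j ∧ lap N h = 0 ∧ Q = r2 N ^ i * h}

lemma W_le (k : ℕ) : W N k ≤ homogeneousSubmodule (Fin N) ℂ k := by
  rw [W, Submodule.span_le]
  rintro Q ⟨i, j, h, rfl, hh, _, rfl⟩
  exact (r2_homog.pow i).mul hh

lemma W_surj (hN : 0 < N) {k : ℕ} {Q : MvPolynomial (Fin N) ℂ} (hQ : Q ∈ W N k) :
    ∃ Q' ∈ W N (k + 2), lap N Q' = Q := by
  induction hQ using Submodule.span_induction with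
  | mem Q hQ =>
    obtain ⟨i, j, h, rfl, hh, hl, rfl⟩ := hQ
    set c : ℂ := 2 * (i + 1) * (2 * i + 2 * j + N) with hc
    have hc0 : c ≠ 0 := by
      rw [hc]
      have h1 : ((i : ℂ) + 1) ≠ 0 := by exact_mod_cast Nat.succ_ne_zero i
      have h2 : (2 * (i : ℂ) + 2 * j + N) ≠ 0 := by
        exact_mod_cast (by omega : 2 * i + 2 * j + N ≠ 0)
      exact mul_ne_zero (mul_ne_zero two_ne_zero h1) h2
    refine ⟨c⁻¹ • (r2 N ^ (i + 1) * h), ?_, ?_⟩
    · exact Submodule.smul_mem _ _ (Submodule.subset_span ⟨i + 1, j, h, by ring, hh, hl, rfl⟩)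
    · rw [map_smul, lap_r2_pow_mul hh hl, ← hc, MvPolynomial.smul_eq_C_mul, ← mul_assoc, ← C_mul,
        inv_mul_cancel₀ hc0, C_1, one_mul]
  | zero => exact ⟨0, Submodule.zero_mem _, map_zero _⟩
  | add p q _ _ hp hq =>
    obtain ⟨p', hp1, hp2⟩ := hp
    obtain ⟨q', hq1, hq2⟩ := hq
    exact ⟨p' + q', Submodule.add_mem _ hp1 hq1, by rw [map_add, hp2, hq2]⟩
  | smul a p _ hp =>
    obtain ⟨p', hp1, hp2⟩ := hp
    exact ⟨a • p', Submodule.smul_mem _ _ hp1, by rw [map_smul, hp2]⟩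

lemma harm_mem_W {k : ℕ} {P : MvPolynomial (Fin N) ℂ} (hP : P.IsHomogeneous k)
    (hl : lap N P = 0) : P ∈ W N k :=
  Submodule.subset_span ⟨0, k, P, by ring, hP, hl, by ring⟩

theorem mem_W (hN : 0 < N) {k : ℕ} {P : MvPolynomial (Fin N) ℂ} (hP : P.IsHomogeneous k) :
    P ∈ W N k := by
  induction k using Nat.strong_induction_on generalizing P with
  | _ k ih =>
    by_cases hk : k < 2
    · apply harm_mem_W hP
      rw [lap_apply]
      refine Finset.sum_eq_zero fun i _ => ?_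
      have h1 : (pderiv i P).IsHomogeneous (k - 1) := hP.pderiv
      have h2 : k - 1 = 0 := by omega
      rw [h2] at h1
      have h3 := (totalDegree_zero_iff_isHomogeneous _).mpr h1
      rw [totalDegree_eq_zero_iff_eq_C] at h3
      rw [h3, pderiv_C]
    · obtain ⟨l, rfl⟩ : ∃ l, k = l + 2 := ⟨k - 2, by omega⟩
      obtain ⟨Q, hQ1, hQ2⟩ := W_surj hN (ih l (by omega) (lap_homog hP))
      have h1 : P - Q ∈ W N (l + 2) := by
        apply harm_mem_W (hP.sub (W_le _ hQ1))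
        rw [map_sub, hQ2, sub_self]
      have h2 : P = (P - Q) + Q := by ring
      rw [h2]
      exact Submodule.add_mem _ h1 hQ1

end Pool.Agent.Helper78.Sph
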