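import Mathlib
import Pool.Agent.Helper78.Sph.Span

/-!
Stone-Weierstrass on the sphere; completeness of the harmonic polynomials.
-/

namespace Pool.Agent.Helper78.Sph

open Laplacian Filter Topology MeasureTheory MvPolynomial
open scoped RealInnerProductSpace ContDiff ComplexConjugate
open Pool.Agent.Helper78.Harm Pool.Agent.Helper78.Act Pool.Agent.Helper78.Eigen

variable {N : ℕ}

/-- complex conjugation of coefficients -/
noncomputable def cj (P : MvPolynomial (Fin N) ℂ) : MvPolynomial (Fin N) ℂ :=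
  MvPolynomial.map (starRingEnd ℂ) P

lemma pev_cj (P : MvPolynomial (Fin N) ℂ) (x : EN N) : pev (cj P) x = conj (pev P x) := by
  unfold pev cj
  rw [MvPolynomial.eval_map, MvPolynomial.eval₂_eq', MvPolynomial.eval_eq', map_sum]
  refine Finset.sum_congr rfl fun s _ => ?_
  rw [map_mul, map_prod]
  congr 1
  refine Finset.prod_congr rfl fun i _ => ?_
  rw [map_pow, Complex.conj_ofReal]

lemma cj_homog {k : ℕ} {P : MvPolynomial (Fin N) ℂ} (hP : P.IsHomogeneous k) :
    (cj P).IsHomogeneous k := hP.map _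

lemma lap_cj (P : MvPolynomial (Fin N) ℂ) : lap N (cj P) = cj (lap N P) := by
  rw [lap_apply, lap_apply, cj, cj, map_sum]
  refine Finset.sum_congr rfl fun i _ => ?_
  rw [MvPolynomial.pderiv_map, MvPolynomial.pderiv_map]

/-- the star subalgebra of polynomial functions on the sphere -/
noncomputable def polyAlg (N : ℕ) : StarSubalgebra ℂ C(Metric.sphere (0 : EN N) 1, ℂ) where
  carrier := {f | ∃ P : MvPolynomial (Fin N) ℂ, ∀ x, f x = pev P x}
  mul_mem' := by
    rintro f g ⟨P, hP⟩ ⟨Q, hQ⟩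
    exact ⟨P * Q, fun x => by rw [ContinuousMap.mul_apply, hP, hQ, pev_mul]⟩
  add_mem' := by
    rintro f g ⟨P, hP⟩ ⟨Q, hQ⟩
    exact ⟨P + Q, fun x => by rw [ContinuousMap.add_apply, hP, hQ, pev_add]⟩
  algebraMap_mem' := fun c => ⟨C c, fun x => by rw [pev_C]; rfl⟩
  star_mem' := by
    rintro f ⟨P, hP⟩
    exact ⟨cj P, fun x => by rw [ContinuousMap.star_apply, hP, pev_cj]; rfl⟩

/-- polynomial functions are dense -/
theorem approx (f : C(Metric.sphere (0 : EN N) 1, ℂ)) {ε : ℝ} (hε : 0 < ε) :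
    ∃ P : MvPolynomial (Fin N) ℂ, ∀ x : Metric.sphere (0 : EN N) 1, ‖f x - pev P x‖ < ε := by
  have h1 : (polyAlg N).topologicalClosure = ⊤ := by
    apply ContinuousMap.starSubalgebra_topologicalClosure_eq_top_of_separatesPoints
    intro x y hxy
    have h2 : ∃ i, (x : EN N) i ≠ (y : EN N) i := by
      by_contra hcon
      push Not at hcon
      apply hxy
      apply Subtype.ext
      ext i
      exact hcon i
    obtain ⟨i, hi⟩ := h2
    refine ⟨fun z => pev (X i) (z : EN N), ⟨⟨fun z => pev (X i) (z : EN N), ?_⟩, ⟨X i, fun z => rfl⟩,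
      rfl⟩, ?_⟩
    · exact (pev_smooth (X i)).continuous.comp continuous_subtype_val
    · change pev (X i) (x : EN N) ≠ pev (X i) (y : EN N)
      rw [pev_X, pev_X]
      exact_mod_cast hi
  have h3 : f ∈ (polyAlg N).topologicalClosure := by rw [h1]; trivial
  have h4 : f ∈ closure ((polyAlg N : StarSubalgebra ℂ C(Metric.sphere (0 : EN N) 1, ℂ)) :
      Set C(Metric.sphere (0 : EN N) 1, ℂ)) := h3
  obtain ⟨g, ⟨P, hP⟩, hg⟩ := Metric.mem_closure_iff.mp h4 ε hε
  refine ⟨P, fun x => ?_⟩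
  rw [← hP, ← dist_eq_norm]
  exact lt_of_le_of_lt (ContinuousMap.dist_apply_le_dist x) hg

/-- the degree zero extension of the restriction of a polynomial to the sphere -/
noncomputable def pun (P : MvPolynomial (Fin N) ℂ) (x : EN N) : ℂ := pev P (‖x‖⁻¹ • x)

lemma pun_smooth (P : MvPolynomial (Fin N) ℂ) : ContDiffOn ℝ ∞ (pun P) {0}ᶜ := by
  intro x hx
  have hx0 : x ≠ 0 := hx
  refine ContDiffAt.contDiffWithinAt ?_
  have h1 : ContDiffAt ℝ ∞ (fun y : EN N => ‖y‖⁻¹ • y) x :=
    ((contDiffAt_norm ℝ hx0).inv (norm_ne_zero_iff.mpr hx0)).smul contDiffAt_id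
  exact (pev_smooth P).contDiffAt.comp x h1

lemma pun_eq_hfun {k : ℕ} {P : MvPolynomial (Fin N) ℂ} (hP : P.IsHomogeneous k) {x : EN N}
    (hx : x ≠ 0) : pun P x = hfun k P x := by
  have hn : 0 < ‖x‖ := norm_pos_iff.mpr hx
  rw [pun, pev_hom hP _ (inv_pos.mpr hn), hfun, rad]
  congr 1
  rw [← Real.rpow_natCast ‖x‖ 2, ← Real.rpow_mul hn.le]
  rw [show ((2 : ℕ) : ℝ) * (-(k : ℝ) / 2) = -(k : ℝ) by push_cast; ring, Real.rpow_neg hn.le,
    Real.rpow_natCast]
  push_cast
  rw [inv_pow]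

lemma norm_unit {x : EN N} (hx : x ≠ 0) : ‖‖x‖⁻¹ • x‖ = 1 := by
  have hn : 0 < ‖x‖ := norm_pos_iff.mpr hx
  rw [norm_smul, norm_inv, norm_norm, inv_mul_cancel₀ hn.ne']

lemma pun_r2 (i : ℕ) (h : MvPolynomial (Fin N) ℂ) {x : EN N} (hx : x ≠ 0) :
    pun (r2 N ^ i * h) x = pun h x := by
  have h1 : pev (r2 N ^ i) (‖x‖⁻¹ • x) = 1 := by
    have h2 : pev (r2 N ^ i) (‖x‖⁻¹ • x) = (pev (r2 N) (‖x‖⁻¹ • x)) ^ i := by
      simp [pev]
    rw [h2, pev_r2, norm_unit hx]
    simp
  rw [pun, pev_mul, h1, one_mul, pun]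

lemma bmp_rad_zero : rad (E := EN N) bmp 0 = 0 := by
  rw [rad, norm_zero, bmp_zero (fun h => by have := h.1; norm_num at this)]
  simp

lemma int_cut {H : EN N → ℂ} (hH : ContDiffOn ℝ ∞ H {0}ᶜ) :
    Integrable (fun x => rad bmp x * H x) (volume : Measure (EN N)) :=
  integrable_cut volume bmp.contDiff
    (fun _ hs => bmp_zero fun h => hs (Set.Ioo_subset_Icc_self h)) hH

lemma int_congr {H H' : EN N → ℂ} (h : ∀ x, x ≠ 0 → H x = H' x) :
    ∫ x, rad bmp x * H x = ∫ x, rad bmp x * H' x := by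
  congr 1
  funext x
  by_cases hx : x = 0
  · rw [hx, bmp_rad_zero, zero_mul, zero_mul]
  · rw [h x hx]

/-- pairing with a function, as a linear functional on polynomials -/
noncomputable def pair (F : EN N → ℂ) (hF : ContDiffOn ℝ ∞ F {0}ᶜ) :
    MvPolynomial (Fin N) ℂ →ₗ[ℂ] ℂ where
  toFun P := ∫ x, rad bmp x * (F x * pun P x)
  map_add' P Q := by
    rw [← integral_add (int_cut (hF.mul (pun_smooth P))) (int_cut (hF.mul (pun_smooth Q)))]
    congr 1
    funext x
    rw [pun, pev_add, ← pun, ← pun]; ring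
  map_smul' c P := by
    rw [RingHom.id_apply, smul_eq_mul, ← integral_const_mul]
    congr 1
    funext x
    rw [pun, pev_smul, ← pun]; ring

lemma pair_apply {F : EN N → ℂ} (hF : ContDiffOn ℝ ∞ F {0}ᶜ) (P : MvPolynomial (Fin N) ℂ) :
    pair F hF P = ∫ x, rad bmp x * (F x * pun P x) := rfl

lemma pair_hfun {F : EN N → ℂ} (hF : ContDiffOn ℝ ∞ F {0}ᶜ) {k : ℕ} {P : MvPolynomial (Fin N) ℂ}
    (hP : P.IsHomogeneous k) : pair F hF P = ∫ x, rad bmp x * (F x * hfun k P x) := by
  rw [pair_apply]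
  exact int_congr fun x hx => by rw [pun_eq_hfun hP hx]

/-- orthogonality to harmonic polynomials gives orthogonality to all polynomials -/
lemma pair_zero (hN : 0 < N) {F : EN N → ℂ} (hF : ContDiffOn ℝ ∞ F {0}ᶜ)
    (h : ∀ (j : ℕ) (P : MvPolynomial (Fin N) ℂ), P.IsHomogeneous j → lap N P = 0 →
      pair F hF P = 0) (P : MvPolynomial (Fin N) ℂ) : pair F hF P = 0 := by
  have h1 : ∀ k (Q : MvPolynomial (Fin N) ℂ), Q ∈ W N k → pair F hF Q = 0 := by
    intro k Q hQ
    have h2 : W N k ≤ LinearMap.ker (pair F hF) := by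
      rw [W, Submodule.span_le]
      rintro Q ⟨i, j, q, _, hq, hl, rfl⟩
      rw [SetLike.mem_coe, LinearMap.mem_ker, ← h j q hq hl, pair_apply, pair_apply]
      exact int_congr fun x hx => by rw [pun_r2 i q hx]
    exact LinearMap.mem_ker.mp (h2 hQ)
  rw [← MvPolynomial.sum_homogeneousComponent P, map_sum]
  exact Finset.sum_eq_zero fun k _ =>
    h1 k _ (mem_W hN (MvPolynomial.homogeneousComponent_isHomogeneous k P))

lemma cont_unit {F : EN N → ℂ} (hF : ContDiffOn ℝ ∞ F {0}ᶜ) :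
    Continuous fun x : Metric.sphere (0 : EN N) 1 => F (x : EN N) := by
  have h1 := hF.continuousOn
  refine h1.comp_continuous continuous_subtype_val fun x => ?_
  have h2 : ‖(x : EN N)‖ = 1 := mem_sphere_zero_iff_norm.mp x.2
  intro h0
  rw [Set.mem_singleton_iff] at h0
  rw [h0, norm_zero] at h2
  exact zero_ne_one h2

/-- completeness -/
theorem zero_of_pair {F : EN N → ℂ} (hF : ContDiffOn ℝ ∞ F {0}ᶜ)
    (hhom : ∀ t : ℝ, 0 < t → ∀ x, F (t • x) = F x)
    (h : ∀ P : MvPolynomial (Fin N) ℂ, pair F hF P = 0) {x : EN N} (hx : x ≠ 0) : F x = 0 := by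
  -- the conjugate function
  have hFc : ContDiffOn ℝ ∞ (fun x => conj (F x)) {0}ᶜ :=
    Complex.conjCLE.contDiff.comp_contDiffOn hF
  have hint : Integrable (fun x => rad bmp x * (F x * conj (F x))) (volume : Measure (EN N)) :=
    int_cut (hF.mul hFc)
  have hI : ∫ x, rad bmp x * (F x * conj (F x)) = 0 := by
    have hFi : Integrable (fun x => rad bmp x * F x) (volume : Measure (EN N)) := int_cut hF
    set K : ℝ := ∫ x, ‖rad bmp x * F x‖ with hK
    have hK0 : 0 ≤ K := integral_nonneg fun x => norm_nonneg _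
    have hle : ∀ ε : ℝ, 0 < ε → ‖∫ x, rad bmp x * (F x * conj (F x))‖ ≤ ε * K := by
      intro ε hε
      obtain ⟨P, hP⟩ := approx (N := N) ⟨fun x => conj (F (x : EN N)), cont_unit hFc⟩ hε
      have h1 : ∫ x, rad bmp x * (F x * conj (F x))
          = ∫ x, (rad bmp x * (F x * conj (F x)) - rad bmp x * (F x * pun P x)) := by
        rw [integral_sub hint (int_cut (hF.mul (pun_smooth P))), ← pair_apply hF P, h P, sub_zero]
      rw [h1, hK, ← integral_const_mul]
      refine norm_integral_le_of_norm_le (hFi.norm.const_mul ε) (Filter.Eventually.of_forall ?_)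
      intro y
      by_cases hy : y = 0
      · rw [hy, bmp_rad_zero]; simp
      · have h2 : rad bmp y * (F y * conj (F y)) - rad bmp y * (F y * pun P y)
            = (rad bmp y * F y) * (conj (F y) - pun P y) := by ring
        rw [h2, norm_mul, mul_comm]
        refine mul_le_mul_of_nonneg_right ?_ (norm_nonneg _)
        have h3 := hP ⟨‖y‖⁻¹ • y, mem_sphere_zero_iff_norm.mpr (norm_unit hy)⟩
        have h4 : F (‖y‖⁻¹ • y) = F y := hhom _ (inv_pos.mpr (norm_pos_iff.mpr hy)) y
        simp only [ContinuousMap.coe_mk, h4] at h3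
        exact h3.le
    have h5 : ‖∫ x, rad bmp x * (F x * conj (F x))‖ ≤ 0 := by
      refine le_of_forall_pos_le_add fun ε hε => ?_
      have h6 := hle (ε / (K + 1)) (by positivity)
      refine h6.trans ?_
      rw [zero_add, div_mul_eq_mul_div, div_le_iff₀ (by positivity)]
      nlinarith
    exact norm_le_zero_iff.mp h5
  -- the integrand is real and nonnegative
  set G : EN N → ℝ := fun x => bmp (‖x‖ ^ 2) * ‖F x‖ ^ 2 with hG
  have hGe : ∀ x, rad bmp x * (F x * conj (F x)) = ((G x : ℝ) : ℂ) := by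
    intro x
    rw [Complex.mul_conj, rad, hG, Complex.normSq_eq_norm_sq]
    push_cast
    ring
  have hGc : Continuous G := by
    have h1 : Continuous (fun x => rad bmp x * (F x * conj (F x))) :=
      (cut_smooth bmp.contDiff (a := 1 / 4) (by norm_num)
        (fun s hs => bmp_zero fun h => by linarith [h.1]) (hF.mul hFc)).continuous
    have h2 : G = fun x => (rad bmp x * (F x * conj (F x))).re := by
      funext x; rw [hGe, Complex.ofReal_re]
    rw [h2]
    exact Complex.continuous_re.comp h1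
  have hG0 : ∀ x, 0 ≤ G x := fun x => mul_nonneg bmp.nonneg (by positivity)
  have hGi : Integrable G (volume : Measure (EN N)) := by
    have h2 : G = fun x => (rad bmp x * (F x * conj (F x))).re := by
      funext x; rw [hGe, Complex.ofReal_re]
    rw [h2]
    exact hint.re
  have hGI : ∫ x, G x = 0 := by
    have h1 : ((∫ x, G x : ℝ) : ℂ) = 0 := by
      rw [← integral_complex_ofReal, ← hI]
      congr 1
      funext x
      exact (hGe x).symm
    exact_mod_cast h1
  have hGae : G =ᵐ[volume] 0 := (integral_eq_zero_iff_of_nonneg hG0 hGi).mp hGI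
  have hGz : G = 0 := (hGc.ae_eq_iff_eq volume continuous_const).mp hGae
  have h6 := congrFun hGz (‖x‖⁻¹ • x)
  have h7 : bmp ((1 : ℝ)) = 1 := bmp.one_of_mem_closedBall (Metric.mem_closedBall_self (by
    exact bmp.rIn_pos.le))
  rw [hG] at h6
  simp only [norm_unit hx, one_pow, h7, one_mul, Pi.zero_apply] at h6
  have h8 : F (‖x‖⁻¹ • x) = 0 := by
    have := pow_eq_zero_iff (two_ne_zero) |>.mp h6
    exact norm_eq_zero.mp this
  rw [← h8]
  exact (hhom _ (inv_pos.mpr (norm_pos_iff.mpr hx)) x).symm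

end Pool.Agent.Helper78.Sph
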