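import Mathlib
import Pool.Agent.Helper78.Sph.Dense

/-!
The eigenfunctions of the spherical Laplacian are the harmonic polynomials.
-/

namespace Pool.Agent.Helper78.Sph

open Laplacian Filter Topology MeasureTheory MvPolynomial
open scoped RealInnerProductSpace ContDiff ComplexConjugate
open Pool.Agent.Helper78.Harm Pool.Agent.Helper78.Act Pool.Agent.Helper78.Eigen

variable {N : ℕ}

/-- the `k`-th eigenvalue -/
noncomputable def lam (N k : ℕ) : ℝ := (k : ℝ) * (k + N - 2)

lemma lam_strictMono (hN : 2 ≤ N) : StrictMono (lam N) := by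
  apply strictMono_nat_of_lt_succ
  intro k
  unfold lam
  have h1 : (2 : ℝ) ≤ N := by exact_mod_cast hN
  have h2 : (0 : ℝ) ≤ k := Nat.cast_nonneg k
  push_cast
  nlinarith

lemma lam_injective (hN : 2 ≤ N) : Function.Injective (lam N) := (lam_strictMono hN).injective

lemma Eig.congr {l : ℝ} {F G : EN N → ℂ} (hF : Eig l F) (h : ∀ x, x ≠ 0 → G x = F x)
    (h0 : ∀ t : ℝ, 0 < t → ∀ x, G (t • x) = G x) : Eig l G := by
  refine ⟨h0, hF.smooth.congr fun x hx => h x hx, fun x hx => ?_⟩
  have hx0 : x ≠ 0 := by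
    intro h1; rw [h1, norm_zero] at hx; exact zero_ne_one hx
  have h1 : G =ᶠ[𝓝 x] F := by
    filter_upwards [isOpen_compl_singleton.mem_nhds (show x ∈ ({0}ᶜ : Set (EN N)) from hx0)]
      with y hy
    exact h y hy
  rw [(InnerProductSpace.laplacian_congr_nhds h1).eq_of_nhds, hF.eig x hx, h x hx0]

lemma pun_scale (P : MvPolynomial (Fin N) ℂ) {t : ℝ} (ht : 0 < t) (x : EN N) :
    pun P (t • x) = pun P x := by
  unfold pun
  congr 1
  rw [norm_smul, Real.norm_of_nonneg ht.le, smul_smul]
  congr 1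
  rw [mul_inv, mul_comm t⁻¹, mul_assoc, inv_mul_cancel₀ ht.ne', mul_one]

lemma eig_pun {k : ℕ} {P : MvPolynomial (Fin N) ℂ} (hP : P.IsHomogeneous k)
    (hl : lap N P = 0) : Eig (lam N k) (pun P) :=
  (eig_hfun hP hl).congr (fun _ hx => pun_eq_hfun hP hx) fun _ ht x => pun_scale P ht x

/-- harmonic homogeneous polynomials -/
noncomputable def V (N k : ℕ) : Submodule ℂ (MvPolynomial (Fin N) ℂ) :=
  homogeneousSubmodule (Fin N) ℂ k ⊓ LinearMap.ker (lap N)

lemma mem_V {k : ℕ} {P : MvPolynomial (Fin N) ℂ} :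
    P ∈ V N k ↔ P.IsHomogeneous k ∧ lap N P = 0 := by
  rw [V, Submodule.mem_inf, mem_homogeneousSubmodule, LinearMap.mem_ker]

instance (k : ℕ) : Module.Finite ℂ (V N k) :=
  Submodule.finiteDimensional_of_le (inf_le_left : V N k ≤ homogeneousSubmodule (Fin N) ℂ k)

/-- the pairing of harmonic polynomials -/
noncomputable def T (N k : ℕ) : V N k →ₗ[ℂ] Module.Dual ℂ (V N k) where
  toFun P := (pair (pun P.1) (pun_smooth P.1)).comp (V N k).subtype
  map_add' P Q := by
    ext R
    simp only [LinearMap.comp_apply, Submodule.subtype_apply, LinearMap.add_apply, pair_apply]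
    rw [← integral_add (int_cut ((pun_smooth P.1).mul (pun_smooth R.1)))
      (int_cut ((pun_smooth Q.1).mul (pun_smooth R.1)))]
    congr 1
    funext x
    have : pun ((P + Q : V N k) : MvPolynomial (Fin N) ℂ) x = pun P.1 x + pun Q.1 x := by
      unfold pun; rw [Submodule.coe_add, pev_add]
    rw [this]; ring
  map_smul' c P := by
    ext R
    simp only [LinearMap.comp_apply, Submodule.subtype_apply, LinearMap.smul_apply, pair_apply,
      RingHom.id_apply, smul_eq_mul]
    rw [← integral_const_mul]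
    congr 1
    funext x
    have : pun ((c • P : V N k) : MvPolynomial (Fin N) ℂ) x = c * pun P.1 x := by
      unfold pun; rw [Submodule.coe_smul, pev_smul]
    rw [this]; ring

lemma T_apply (k : ℕ) (P Q : V N k) :
    T N k P Q = ∫ x, rad bmp x * (pun P.1 x * pun Q.1 x) := rfl

/-- a polynomial vanishing on real points is zero -/
lemma eq_zero_of_pev {P : MvPolynomial (Fin N) ℂ} (h : ∀ x : EN N, pev P x = 0) : P = 0 := by
  apply MvPolynomial.funext_set (fun _ : Fin N => Set.range (fun r : ℝ => (r : ℂ)))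
  · intro i
    exact Set.infinite_range_of_injective Complex.ofReal_injective
  · intro x hx
    choose y hy using fun i => hx i (Set.mem_univ i)
    have h1 := h (WithLp.toLp 2 y)
    rw [pev] at h1
    rw [map_zero, ← h1]
    congr 1
    congr 1
    funext i
    exact (hy i).symm

lemma pev_of_unit {k : ℕ} {P : MvPolynomial (Fin N) ℂ} (hN : 0 < N) (hP : P.IsHomogeneous k)
    (h : ∀ x : EN N, ‖x‖ = 1 → pev P x = 0) : P = 0 := by
  apply eq_zero_of_pev
  have hne : ∀ x : EN N, x ≠ 0 → pev P x = 0 := by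
    intro x hx
    have hn : 0 < ‖x‖ := norm_pos_iff.mpr hx
    have h1 := pev_hom hP ‖x‖ hn (‖x‖⁻¹ • x)
    rw [smul_smul, mul_inv_cancel₀ hn.ne', one_smul, h _ (norm_unit hx), mul_zero] at h1
    exact h1
  intro x
  by_cases hx : x = 0
  · -- continuity
    have hc : Continuous (pev P) := (pev_smooth P).continuous
    have hd : Dense ({0}ᶜ : Set (EN N)) := by
      have : Nontrivial (EN N) := by
        have : Nonempty (Fin N) := ⟨⟨0, hN⟩⟩
        infer_instance
      exact dense_compl_singleton 0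
    have h1 : pev P = fun _ => 0 := by
      apply hc.ext_on hd continuous_const
      intro y hy
      exact hne y hy
    rw [h1]
  · exact hne x hx

lemma T_injective (hN : 0 < N) (k : ℕ) : Function.Injective (T N k) := by
  rw [injective_iff_map_eq_zero]
  intro P hP
  obtain ⟨hP1, hP2⟩ := mem_V.mp P.2
  have hQ : cj P.1 ∈ V N k := mem_V.mpr ⟨cj_homog hP1, by rw [lap_cj, hP2, cj, map_zero]⟩
  have h1 : T N k P ⟨cj P.1, hQ⟩ = 0 := by rw [hP]; rfl
  rw [T_apply] at h1
  -- the integrand is nonnegative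
  set G : EN N → ℝ := fun x => bmp (‖x‖ ^ 2) * ‖pun P.1 x‖ ^ 2 with hG
  have hGe : ∀ x, rad bmp x * (pun P.1 x * pun (cj P.1) x) = ((G x : ℝ) : ℂ) := by
    intro x
    have h2 : pun (cj P.1) x = conj (pun P.1 x) := by
      unfold pun; rw [pev_cj]
    rw [h2, Complex.mul_conj, rad, hG, Complex.normSq_eq_norm_sq]
    push_cast
    ring
  have hGr : G = fun x => (rad bmp x * (pun P.1 x * pun (cj P.1) x)).re := by
    funext x; rw [hGe, Complex.ofReal_re]
  have hGc : Continuous G := by
    have h1 : Continuous (fun x => rad bmp x * (pun P.1 x * pun (cj P.1) x)) :=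
      (cut_smooth bmp.contDiff (a := 1 / 4) (by norm_num)
        (fun s hs => bmp_zero fun h => by linarith [h.1])
        ((pun_smooth P.1).mul (pun_smooth (cj P.1)))).continuous
    rw [hGr]
    exact Complex.continuous_re.comp h1
  have hG0 : ∀ x, 0 ≤ G x := fun x => mul_nonneg bmp.nonneg (by positivity)
  have hGi : Integrable G (volume : Measure (EN N)) := by
    rw [hGr]
    exact (int_cut ((pun_smooth P.1).mul (pun_smooth (cj P.1)))).re
  have hGI : ∫ x, G x = 0 := by
    have h3 : ((∫ x, G x : ℝ) : ℂ) = 0 := by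
      rw [← integral_complex_ofReal, ← h1]
      congr 1
      funext x
      exact (hGe x).symm
    exact_mod_cast h3
  have hGae : G =ᵐ[volume] 0 := (integral_eq_zero_iff_of_nonneg hG0 hGi).mp hGI
  have hGz : G = 0 := (hGc.ae_eq_iff_eq volume continuous_const).mp hGae
  apply Subtype.ext
  refine pev_of_unit hN hP1 fun x hx => ?_
  have h6 := congrFun hGz x
  have h7 : bmp ((1 : ℝ)) = 1 := bmp.one_of_mem_closedBall (Metric.mem_closedBall_self (by
    exact bmp.rIn_pos.le))
  rw [hG] at h6
  simp only [hx, one_pow, h7, one_mul, Pi.zero_apply] at h6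
  have h8 : pun P.1 x = 0 := by
    have := pow_eq_zero_iff (two_ne_zero) |>.mp h6
    exact norm_eq_zero.mp this
  rw [pun, hx, inv_one, one_smul] at h8
  exact h8

lemma T_surjective (hN : 0 < N) (k : ℕ) : Function.Surjective (T N k) := by
  refine (LinearMap.injective_iff_surjective_of_finrank_eq_finrank ?_).mp (T_injective hN k)
  exact (Subspace.dual_finrank_eq).symm

lemma Eig.sub {l : ℝ} {F G : EN N → ℂ} (hF : Eig l F) (hG : Eig l G) :
    Eig l (fun x => F x - G x) := by
  refine ⟨fun t ht x => by simp only [hF.hom t ht, hG.hom t ht], hF.smooth.sub hG.smooth,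
    fun x hx => ?_⟩
  have hx0 : x ≠ 0 := by
    intro h1; rw [h1, norm_zero] at hx; exact zero_ne_one hx
  have h1 : ContDiffAt ℝ 2 F x := (smooth_at hF.smooth hx0).of_le two_le
  have h2 : ContDiffAt ℝ 2 G x := (smooth_at hG.smooth hx0).of_le two_le
  have h3 : Δ (fun x => F x - G x) x = Δ F x - Δ G x := by
    set b := EuclideanSpace.basisFun (Fin N) ℝ with hb
    rw [laplacian_eq b (h1.sub h2), laplacian_eq b h1, laplacian_eq b h2,
      ← Finset.sum_sub_distrib]
    refine Finset.sum_congr rfl fun i _ => ?_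
    have h4 : (fun y => fderiv ℝ (fun x => F x - G x) y (b i)) =ᶠ[𝓝 x]
        fun y => fderiv ℝ F y (b i) - fderiv ℝ G y (b i) := by
      filter_upwards [eventually_diff h1, eventually_diff h2] with y hy1 hy2
      rw [fderiv_fun_sub hy1 hy2, sub_apply]
    rw [h4.fderiv_eq, fderiv_fun_sub (diff_fderiv_apply h1 _) (diff_fderiv_apply h2 _), sub_apply]
  rw [h3, hF.eig x hx, hG.eig x hx]
  ring

/-- every eigenfunction comes from a harmonic polynomial -/
theorem exists_harm (hN : 2 ≤ N) {k : ℕ} {F : EN N → ℂ} (hF : Eig (lam N k) F) :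
    ∃ P : MvPolynomial (Fin N) ℂ, P.IsHomogeneous k ∧ lap N P = 0 ∧
      ∀ x, x ≠ 0 → F x = pun P x := by
  have hN0 : 0 < N := by omega
  obtain ⟨P, hP⟩ := T_surjective hN0 k ((pair F hF.smooth).comp (V N k).subtype)
  obtain ⟨hP1, hP2⟩ := mem_V.mp P.2
  refine ⟨P.1, hP1, hP2, fun x hx => ?_⟩
  have hG : Eig (lam N k) (fun x => F x - pun P.1 x) := hF.sub (eig_pun hP1 hP2)
  have h0 : ∀ Q : MvPolynomial (Fin N) ℂ, pair (fun x => F x - pun P.1 x) hG.smooth Q = 0 := by
    apply pair_zero hN0
    intro j Q hQ1 hQ2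
    by_cases hj : j = k
    · subst hj
      have h1 := congrArg (fun A => A ⟨Q, mem_V.mpr ⟨hQ1, hQ2⟩⟩) hP
      simp only [LinearMap.comp_apply, Submodule.subtype_apply] at h1
      have h2 : pair (pun P.1) (pun_smooth P.1) Q = pair F hF.smooth Q := h1
      rw [pair_apply, pair_apply] at h2
      rw [pair_apply]
      have h3 : ∫ x, rad bmp x * ((F x - pun P.1 x) * pun Q x)
          = ∫ x, (rad bmp x * (F x * pun Q x) - rad bmp x * (pun P.1 x * pun Q x)) := by
        congr 1
        funext x
        ring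
      rw [h3, integral_sub (int_cut (hF.smooth.mul (pun_smooth Q)))
        (int_cut ((pun_smooth P.1).mul (pun_smooth Q))), h2, sub_self]
    · rw [pair_apply]
      exact orth volume hG (eig_pun hQ1 hQ2) fun h => hj (lam_injective hN h).symm
  have h1 := zero_of_pair hG.smooth hG.hom h0 hx
  exact sub_eq_zero.mp h1

end Pool.Agent.Helper78.Sph
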