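import Mathlib
import Pool.Agent.Helper78.Geom
import Pool.Agent.Helper78.Sph.Complete

/-!
Algebra of eigenfunctions; invariance of polynomials.
-/

namespace Pool.Agent.Helper78.Sph

open Laplacian Filter Topology MvPolynomial
open scoped RealInnerProductSpace ContDiff
open Pool.Agent.Helper78.Harm Pool.Agent.Helper78.Act Pool.Agent.Helper78.Eigen
open Pool.Agent.Helper78.Geom

variable {N : ℕ}

lemma Eig.zero (l : ℝ) : Eig l (fun _ : EN N => (0 : ℂ)) := by
  refine ⟨fun _ _ _ => rfl, contDiffOn_const, fun x _ => ?_⟩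
  have h : Δ (fun _ : EN N => (0 : ℂ)) x = 0 := by
    rw [laplacian_eq (EuclideanSpace.basisFun (Fin N) ℝ) contDiffAt_const]
    simp
  rw [h, mul_zero]

lemma Eig.add {l : ℝ} {F G : EN N → ℂ} (hF : Eig l F) (hG : Eig l G) :
    Eig l (fun x => F x + G x) := by
  have h1 := hF.sub ((Eig.zero l).sub hG)
  have h2 : (fun x => F x + G x) = fun x => F x - (0 - G x) := by
    funext x; ring
  rw [h2]; exact h1

lemma Eig.smul {l : ℝ} {F : EN N → ℂ} (c : ℂ) (hF : Eig l F) :
    Eig l (fun x => c * F x) := by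
  refine ⟨fun t ht x => by simp only [hF.hom t ht], contDiffOn_const.mul hF.smooth,
    fun x hx => ?_⟩
  have hx0 : x ≠ 0 := by
    intro h1; rw [h1, norm_zero] at hx; exact zero_ne_one hx
  have h1 : ContDiffAt ℝ 2 F x := (smooth_at hF.smooth hx0).of_le two_le
  have h3 : Δ (fun x => c * F x) x = c * Δ F x := by
    rw [laplacian_mul (EuclideanSpace.basisFun (Fin N) ℝ) contDiffAt_const h1]
    have h4 : Δ (fun _ : EN N => c) x = 0 := by
      rw [laplacian_eq (EuclideanSpace.basisFun (Fin N) ℝ) contDiffAt_const]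
      simp
    rw [h4]
    simp
  rw [h3, hF.eig x hx]
  ring

lemma pev_act {d : ℕ} (g : O d) (P : MvPolynomial (Fin (d + 1)) ℂ) (x : EN (d + 1)) :
    pev (act (toC (d + 1) g) P) x = pev P (app g x) := by
  induction P using MvPolynomial.induction_on with
  | C a => rw [act_C, pev_C, pev_C]
  | add p q hp hq => rw [map_add, pev_add, pev_add, hp, hq]
  | mul_X p n hp =>
    rw [map_mul, pev_mul, pev_mul, hp, act_X, pev_X, pev_sum]
    congr 1
    have h1 : (app g x : EN (d + 1)) n
        = ∑ j, (g : Matrix (Fin (d + 1)) (Fin (d + 1)) ℝ) n j * x j := rfl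
    rw [h1, Complex.ofReal_sum]
    refine Finset.sum_congr rfl fun j _ => ?_
    rw [pev_mul, pev_C, pev_X, toC_eq, Matrix.map_apply]
    push_cast
    rfl

lemma pev_sub_unit {k : ℕ} {P Q : MvPolynomial (Fin N) ℂ} (hN : 0 < N)
    (hP : P.IsHomogeneous k) (hQ : Q.IsHomogeneous k)
    (h : ∀ x : EN N, ‖x‖ = 1 → pev P x = pev Q x) : P = Q := by
  have h1 : P - Q = 0 := by
    refine pev_of_unit hN (hP.sub hQ) fun x hx => ?_
    rw [pev_sub, h x hx, sub_self]
  exact sub_eq_zero.mp h1

end Pool.Agent.Helper78.Sph
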